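import Pool.Agent.Work.MP_64ea0f_cs.InterfaceG4

set_option autoImplicit false

/-! # Block FIN (helper41): the frozen statement S01727 from RDX, INT, CSY -/

namespace Pool.CS

namespace FIN41

/-- the entries of the form are nonpositive off the diagonal -/
theorem kf_off {m : ℕ} (h1 : m ≠ 1) : kf m ≤ 0 := by
  unfold kf
  split_ifs with h0
  · norm_num
  · have h2 : 2 ≤ m := by omega
    have h3 : (0 : ℝ) ≤ Real.pi / m := by positivity
    have h4 : Real.pi / m ≤ Real.pi / 2 := by
      have : (2 : ℝ) ≤ m := by exact_mod_cast h2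
      exact div_le_div_of_nonneg_left Real.pi_pos.le (by norm_num) this
    have h5 : 0 ≤ Real.cos (Real.pi / m) :=
      Real.cos_nonneg_of_mem_Icc ⟨by linarith [Real.pi_pos], h4⟩
    linarith

theorem kf_one : kf 1 = 1 := by
  unfold kf
  simp

end FIN41

theorem fin_thm : Stmt_RDX → Stmt_INT → Stmt_CSY → Stmt_FIN := by
  intro hRDX hINT hCSY B _ M g h hgh
  classical
  have : Fintype B := Fintype.ofFinite B
  obtain ⟨ρ, hrefl, hgen, hsign, htriv⟩ := hRDX B M
  have hsymm : ∀ s t : B, kf (M s t) = kf (M t s) := fun s t => by rw [M.symmetric s t]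
  have hdiag : ∀ s : B, kf (M s s) = 1 := fun s => by rw [M.diagonal s, FIN41.kf_one]
  have hoff : ∀ s t : B, s ≠ t → kf (M s t) ≤ 0 := fun s t hst =>
    FIN41.kf_off (M.off_diagonal s t hst)
  let D : Rd :=
    { S := B
      fS := inferInstance
      dS := inferInstance
      W := M.Group
      gW := inferInstance
      k := fun s t => kf (M s t)
      σ := M.simple
      ρ := ρ
      symm := hsymm
      diag := hdiag
      off := hoff
      refl := hrefl
      gen := hgen
      sign := hsign
      triv := htriv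
      intg := hINT B M }
  have hcs : CSep M.Group := hCSY D
  have hpc : ¬ PC g h := fun hp => hgh (hcs g h hp)
  unfold PC at hpc
  push Not at hpc
  obtain ⟨N, hN, hNf, hNc⟩ := hpc
  have := hN
  have := hNf
  refine ⟨M.Group ⧸ N, inferInstance, inferInstance, QuotientGroup.mk' N, ?_⟩
  intro hc
  rw [isConj_comm, isConj_iff] at hc
  obtain ⟨c, hc⟩ := hc
  obtain ⟨c, rfl⟩ := QuotientGroup.mk'_surjective N c
  refine hNc c ?_
  rw [← QuotientGroup.eq_one_iff]
  have h1 : (QuotientGroup.mk' N) (c * h * c⁻¹ * g⁻¹) = 1 := by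
    rw [map_mul, map_inv, map_mul, map_mul, map_inv, hc, mul_inv_cancel]
  exact h1

end Pool.CS
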